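import Pool.Agent.W662.KKS.Fin2
import Pool.Agent.W662.KKS.Kk
import Pool.Agent.W662.KKS.Defs3

set_option autoImplicit false

open scoped InnerProductSpace
open Pool.Agent.Helper278 Pool.Agent.W663.KK Pool.Agent.W662.KKS

namespace Pool.Agent.Results.MP_5c1ef7_an.UniversalStability

/-- **Kadison–Kastler stability of all II₁ factors, with a universal constant.** There is `δ > 0`
such that any two II₁ factors `M, N` on the same Hilbert space (separable or not) at
Kadison–Kastler distance less than `δ` are star isomorphic. -/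
theorem result :
    ∃ δ : ℝ, 0 < δ ∧ ∀ (H : Type) [NormedAddCommGroup H] [InnerProductSpace ℂ H]
      [CompleteSpace H] (M N : VonNeumannAlgebra H) (τ : Elt M → ℂ) (σ : Elt N → ℂ),
      IsIIOneFactor M τ → IsIIOneFactor N σ → kkDist M N < δ →
        ∃ θ : (H →L[ℂ] H) → (H →L[ℂ] H), IsStarIso M N θ := by
  obtain ⟨δ, hδ, h⟩ := gmain
  refine ⟨δ, hδ, ?_⟩
  intro H _ _ _ M N τ σ hM hN hd
  have hd' : kkDist N M < δ := by rw [← kk_comm]; exact hd
  exact isStarIso_of (h H M N τ σ hM hN (near_of_kk hd) (near_of_kk hd'))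

end Pool.Agent.Results.MP_5c1ef7_an.UniversalStability
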